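import Pool.Agent.Q28.PV.Main

/-!
# Abel-Jacobi maps, squares of homologically trivial cycles and algebraic equivalence
-/

open CategoryTheory AlgebraicGeometry

universe u v w w'

namespace Pool.Agent.Q28.SQ

open Pool.Agent.H914 Pool.Agent.H914.VarClass Pool.Agent.H914.VarClass.Obj Pool.Agent.W492.BB
  Pool.Agent.W550.Corr Pool.Agent.TH133 Pool.Agent.Q28.PV

variable {k : Type u} [Field k] {𝒱 : VarClass k} {C : TheoryData.{u, v, 0} 𝒱 ℚ}
  {K : Type w} [Field K] {H : WeilTheoryData.{u, v, w} C K}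
  {F : Type} [Field F] [Algebra ℚ F]

/-- The kernel of the Abel-Jacobi map on `CH^j(X)_hom` consists of algebraically trivial cycles. -/
def KernelIsAlg (D : AJTheory.{u, v, w, w'} H F) (X : 𝒱.Obj) (j : ℕ) : Prop :=
  ∀ z : C.A X, HomTriv H X j z → D.aj X j z = 0 → AlgTriv H X j z

/-- The reducibility theorem of Poincare for the Jacobian `J(T)` of a curve `T` (as in
`Pool.Agent.Q28.PV.IsAbelian`): the kernel of the homomorphism `J(T) ⊗ ℚ → V X j` given by a cycle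
`Γ ∈ CH^j(T × X)` and the Abel-Jacobi map of `X` is contained in the image of an idempotent cycle `e`
on `T × T` (the projector onto an abelian subvariety) for which `Γ ∘ e` is homologically trivial. -/
def PoincareReducibility (D : AJTheory.{u, v, w, w'} H F) : Prop :=
  ∀ (T X : 𝒱.Obj) (j : ℕ) (Γ : C.A (T.prod X)), T.dim = 1 → C.Deg j Γ →
    ∃ e : C.A (T.prod T), C.Deg 1 e ∧ H.cl (C.comp e Γ) = 0 ∧
      ∀ a : C.A T, HomTriv H T 1 a → D.aj X j (C.act Γ a) = 0 → C.act e a = a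

/-- The squares of all homologically trivial cycles vanish. -/
def SquaresVanish (H : WeilTheoryData.{u, v, w} C K) : Prop :=
  ∀ (X : 𝒱.Obj) (i : ℕ) (x : C.A X), HomTriv H X i x → x * x = 0

/-- The products of homologically trivial cycles vanish. -/
def ProductsVanish (H : WeilTheoryData.{u, v, w} C K) : Prop :=
  ∀ (X : 𝒱.Obj) (i j : ℕ) (x y : C.A X), HomTriv H X i x → HomTriv H X j y → x * y = 0

/-- The products of homologically trivial cycles and homologically trivial divisors vanish. -/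
def DivisorsKill (H : WeilTheoryData.{u, v, w} C K) : Prop :=
  ∀ (X : 𝒱.Obj) (i : ℕ) (x d : C.A X), HomTriv H X i x → HomTriv H X 1 d → x * d = 0

/-- Homologically trivial correspondences act as zero on homologically trivial cycles. -/
def CorrespondencesKill (H : WeilTheoryData.{u, v, w} C K) : Prop :=
  ∀ (X Y : 𝒱.Obj) (j i : ℕ) (Γ : C.A (X.prod Y)) (z : C.A X),
    C.Deg ((X.dim : ℤ) + i - j) Γ → H.cl Γ = 0 → HomTriv H X j z → C.act Γ z = 0

/-- The Abel-Jacobi map is injective on `CH^j(X)_hom`. -/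
def IsInjective (D : AJTheory.{u, v, w, w'} H F) (X : 𝒱.Obj) (j : ℕ) : Prop :=
  ∀ z : C.A X, HomTriv H X j z → D.aj X j z = 0 → z = 0

variable [IsChowProj C] [IsWeilProj H]

section mul

variable {X Y T Z : 𝒱.Obj} {i j : ℕ}

lemma HomTriv.mul {x y : C.A X} (hx : HomTriv H X i x) (hy : C.Deg j y) :
    HomTriv H X (i + j) (x * y) := by
  refine ⟨?_, by rw [map_mul, hx.2, zero_mul]⟩
  have h := C.mul_mem hx.1 hy
  have e : ((i + j : ℕ) : ℤ) = (i : ℤ) + j := by push_cast; ring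
  rw [e]; exact h

lemma HomTriv.pull (f : X ⟶ Y) {z : C.A Y} (h : HomTriv H Y j z) :
    HomTriv H X j (C.pull f z) :=
  ⟨C.pull_mem f h.1, by rw [H.cl_pull, h.2, map_zero]⟩

lemma exists_dim (hT : T.dim = 1) (m : ℕ) : ∃ W : 𝒱.Obj, W.dim = m + 1 := by
  induction m with
  | zero => exact ⟨T, hT⟩
  | succ m ih =>
    obtain ⟨W, hW⟩ := ih
    exact ⟨W.prod T, by rw [dim_prod, hW, hT]⟩

lemma push_point {o : C.A T} (ho : HasDegree C o 1) (z : C.A X) :
    C.push (fst X T) (C.pull (fst X T) z * C.pull (snd X T) o) = z := by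
  rw [C.proj_left, (ho X).2, one_smul, mul_one]

lemma polar (h : SquaresVanish H) {x y : C.A X} (hx : HomTriv H X i x) (hy : HomTriv H X i y) :
    x * y = 0 := by
  have h1 := h X i (x + y) (hx.add hy)
  rw [add_mul, mul_add, mul_add, h X i x hx, h X i y hy, zero_add, add_zero, ch_comm C y x] at h1
  have h2 : (2 : ℚ) • (x * y) = 0 := by rw [two_smul]; exact h1
  exact (smul_eq_zero.mp h2).resolve_left two_ne_zero

/-- divisors: codimension at least two -/
lemma div_zero_two (hT : T.dim = 1) (h : SquaresVanish H) {x d : C.A Z}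
    (hx : HomTriv H Z (j + 2) x) (hd : HomTriv H Z 1 d) : x * d = 0 := by
  obtain ⟨W, hW⟩ := exists_dim hT j
  obtain ⟨o, ho, ho1⟩ := exists_point (C := C) W
  have h1 : HomTriv H (Z.prod W) (j + 2) (C.pull (fst Z W) x) := HomTriv.pull _ hx
  have h2 : HomTriv H (Z.prod W) (j + 2) (C.pull (fst Z W) d * C.pull (snd Z W) o) := by
    have h3 : C.Deg ((j + 1 : ℕ) : ℤ) (C.pull (snd Z W) o) := by
      rw [← hW]; exact C.pull_mem _ ho
    have h4 := HomTriv.mul (HomTriv.pull (fst Z W) hd) h3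
    have e : 1 + (j + 1) = j + 2 := by ring
    rwa [e] at h4
  have h5 := polar h h1 h2
  rw [← mul_assoc, ← map_mul] at h5
  rw [← push_point ho1 (x * d), h5, map_zero]

lemma div_step {o : C.A T} (ho : C.Deg 1 o) (ho1 : HasDegree C o 1)
    (h : ∀ (Z : 𝒱.Obj) (x d : C.A Z), HomTriv H Z (j + 1) x → HomTriv H Z 1 d → x * d = 0)
    {x d : C.A Z} (hx : HomTriv H Z j x) (hd : HomTriv H Z 1 d) : x * d = 0 := by
  have h3 : C.Deg ((1 : ℕ) : ℤ) (C.pull (snd Z T) o) := C.pull_mem _ (by exact_mod_cast ho)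
  have h4 := h (Z.prod T) (C.pull (fst Z T) x * C.pull (snd Z T) o) (C.pull (fst Z T) d)
    (HomTriv.mul (HomTriv.pull (fst Z T) hx) h3) (HomTriv.pull _ hd)
  rw [mul_assoc, ch_comm C (C.pull (snd Z T) o), ← mul_assoc, ← map_mul] at h4
  rw [← push_point ho1 (x * d), h4, map_zero]

lemma div_zero (hT : T.dim = 1) (h : SquaresVanish H) : ∀ (j : ℕ) (Z : 𝒱.Obj) (x d : C.A Z),
    HomTriv H Z j x → HomTriv H Z 1 d → x * d = 0 := by
  obtain ⟨o, ho, ho1⟩ := exists_point (C := C) T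
  have ho' : C.Deg 1 o := by rw [hT] at ho; exact_mod_cast ho
  have h2 : ∀ (j : ℕ) (Z : 𝒱.Obj) (x d : C.A Z), HomTriv H Z (j + 2) x → HomTriv H Z 1 d →
      x * d = 0 := fun j Z x d hx hd => div_zero_two hT h hx hd
  have h1 : ∀ (Z : 𝒱.Obj) (x d : C.A Z), HomTriv H Z 1 x → HomTriv H Z 1 d → x * d = 0 :=
    fun Z x d hx hd => div_step ho' ho1 (h2 0) hx hd
  have h0 : ∀ (Z : 𝒱.Obj) (x d : C.A Z), HomTriv H Z 0 x → HomTriv H Z 1 d → x * d = 0 :=
    fun Z x d hx hd => div_step ho' ho1 h1 hx hd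
  intro j
  match j with
  | 0 => exact h0
  | 1 => exact h1
  | j + 2 => exact h2 j

lemma kills_of_div (h : ∀ (X : 𝒱.Obj) (i : ℕ) (x d : C.A X), HomTriv H X i x →
    HomTriv H X 1 d → x * d = 0) (X : 𝒱.Obj) (j : ℕ) : KillsJacobians H X j := by
  intro T Γ a hT hΓ ha
  rw [C.act_apply, h (T.prod X) j Γ _ hΓ (HomTriv.pull _ ha), map_zero]

end mul

section kernel

variable (D : AJTheory.{u, v, w, w'} H F) {X T : 𝒱.Obj} {j : ℕ}

lemma graph_mem {X Y : 𝒱.Obj} (f : X ⟶ Y) : C.graph f ∈ C.gr (X.prod Y) Y.dim := by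
  have h := C.push_mem (Obj.lift (𝟙 X) f) (C.one_mem X)
  have e1 : (0 : ℤ) + 1 * (((X.prod Y).dim : ℤ) - (X.dim : ℤ)) = Y.dim := by
    rw [dim_prod]; push_cast; ring
  rwa [e1] at h

/-- passage to a product with a curve -/
lemma kernel_prod (hT : T.dim = 1) {s s' : ℕ} (hs : s + s' = 1) {c c' : C.A T} (hc : C.Deg s c)
    (hc' : C.Deg s' c') (hcc : HasDegree C (c * c') 1) (h : KernelIsAlg D (X.prod T) (j + s)) :
    KernelIsAlg D X j := by
  intro z hz hz0
  set Γ := C.comp (C.cograph (fst X T)) (C.mulCorr (C.pull (snd X T) c)) with hΓ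
  have d1 : C.Deg ((X.dim : ℤ) + (j + s : ℕ) - j) Γ := by
    have h2 : C.cograph (fst X T) ∈ C.gr (X.prod (X.prod T)) X.dim := cograph_mem _
    have h3 : C.mulCorr (C.pull (snd X T) c) ∈ C.gr _ (((X.prod T).dim : ℤ) + s) :=
      mulCorr_mem (C.pull_mem _ hc)
    have h4 := comp_curve h2 h3
    have e : (X.dim : ℤ) + (j + s : ℕ) - j = X.dim + s := by push_cast; ring
    rw [e]; exact h4
  set Δ := C.comp (C.mulCorr (C.pull (snd X T) c')) (C.graph (fst X T)) with hΔ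
  have d2 : C.Deg (((X.prod T).dim : ℤ) + j - (j + s : ℕ)) Δ := by
    have h3 : C.mulCorr (C.pull (snd X T) c') ∈ C.gr _ (((X.prod T).dim : ℤ) + s') :=
      mulCorr_mem (C.pull_mem _ hc')
    have h2 : C.graph (fst X T) ∈ C.gr ((X.prod T).prod X) (((X.prod T).dim : ℤ) + (-1)) := by
      have e : ((X.prod T).dim : ℤ) + (-1) = X.dim := by rw [dim_prod, hT]; push_cast; ring
      rw [e]; exact graph_mem _
    have h4 := comp_curve h3 h2
    have e : ((X.prod T).dim : ℤ) + j - (j + s : ℕ) = ((X.prod T).dim : ℤ) + s' + (-1) := by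
      have : (s : ℤ) + s' = 1 := by exact_mod_cast hs
      push_cast; linarith
    rw [e]; exact h4
  have h1 := h (C.act Γ z) (hz.act d1) (by rw [D.aj_act _ _ _ _ _ _ d1 hz, hz0, map_zero])
  have h5 := AlgTriv.act d2 h1
  have h6 : C.act Δ (C.act Γ z) = z := by
    rw [hΔ, hΓ, C.act_comp, C.act_comp, C.act_cograph, C.act_mulCorr, C.act_mulCorr, C.act_graph,
      ← mul_assoc, ← map_mul, ch_comm C c' c, C.proj_right, (hcc X).2, one_smul, one_mul]
  rwa [h6] at h5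

lemma kernel_up (hT : T.dim = 1)
    (h : ∀ (i : ℕ) (X : 𝒱.Obj), X.dim = 2 * i + 1 → KernelIsAlg D X (i + 1)) (m : ℕ) :
    ∀ (X : 𝒱.Obj) (j : ℕ), X.dim + 1 = 2 * j + m → KernelIsAlg D X j := by
  obtain ⟨o, ho, ho1⟩ := exists_point (C := C) T
  induction m with
  | zero =>
    intro X j hX
    obtain ⟨i, rfl⟩ : ∃ i, j = i + 1 := ⟨j - 1, by omega⟩
    exact h i X (by omega)
  | succ m ih =>
    intro X j hX
    refine kernel_prod D hT (s := 1) (s' := 0) rfl (c := o) (c' := 1) ?_ ?_ (by rwa [mul_one]) ?_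
    · rw [hT] at ho; exact_mod_cast ho
    · exact_mod_cast C.one_mem T
    · exact ih (X.prod T) (j + 1) (by rw [dim_prod]; omega)

lemma kernel_down (hT : T.dim = 1)
    (h : ∀ (i : ℕ) (X : 𝒱.Obj), X.dim = 2 * i + 1 → KernelIsAlg D X (i + 1)) (m : ℕ) :
    ∀ (X : 𝒱.Obj) (j : ℕ), X.dim + 1 + m = 2 * j → KernelIsAlg D X j := by
  obtain ⟨o, ho, ho1⟩ := exists_point (C := C) T
  induction m with
  | zero =>
    intro X j hX
    obtain ⟨i, rfl⟩ : ∃ i, j = i + 1 := ⟨j - 1, by omega⟩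
    exact h i X (by omega)
  | succ m ih =>
    intro X j hX
    refine kernel_prod D hT (s := 0) (s' := 1) rfl (c := 1) (c' := o) ?_ ?_ (by rwa [one_mul]) ?_
    · exact_mod_cast C.one_mem T
    · rw [hT] at ho; exact_mod_cast ho
    · exact ih (X.prod T) j (by rw [dim_prod]; omega)

lemma kernel_all (hT : T.dim = 1)
    (h : ∀ (i : ℕ) (X : 𝒱.Obj), X.dim = 2 * i + 1 → KernelIsAlg D X (i + 1)) (X : 𝒱.Obj)
    (j : ℕ) : KernelIsAlg D X j := by
  rcases le_total (2 * j) (X.dim + 1) with h1 | h1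
  · exact kernel_up D hT h (X.dim + 1 - 2 * j) X j (by omega)
  · exact kernel_down D hT h (2 * j - (X.dim + 1)) X j (by omega)

/-- homologically trivial correspondences map to the kernel of the Abel-Jacobi map -/
lemma aj_act_zero {X Y : 𝒱.Obj} {i : ℕ} {Γ : C.A (X.prod Y)} (hΓ : C.Deg ((X.dim : ℤ) + i - j) Γ)
    (hcl : H.cl Γ = 0) {z : C.A X} (hz : HomTriv H X j z) : D.aj Y i (C.act Γ z) = 0 := by
  have h0 : D.map j i Γ = D.map j i (0 : C.A (X.prod Y)) := by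
    refine D.map_congr _ _ _ _ _ _ hΓ (zero_mem _) (kills_of_cl ?_ _)
    rw [sub_zero, hcl]
  rw [D.aj_act _ _ _ _ _ _ hΓ hz, h0, ← D.aj_act _ _ _ _ _ _ (zero_mem _) hz, C.act_zero, aj_zero]

lemma kills_iff' (hD : PoincareReducibility D) (X : 𝒱.Obj) (j : ℕ) :
    (∀ z, AlgTriv H X j z → D.aj X j z = 0 → z = 0) ↔ KillsJacobians H X j := by
  constructor
  · intro h T Γ a hT hΓ ha
    have h1 := DoublyTriv.sub D (X := X) (j := j) ⟨T, Γ, a, hT, hΓ, ha, rfl⟩
    exact h _ h1.1 h1.2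
  · rintro h z ⟨T, Γ, a, hT, hΓ, ha, rfl⟩ hz0
    obtain ⟨e, he, hcl, hker⟩ := hD T X j Γ hT hΓ
    have hae := hker a ha hz0
    have h1 : C.act (C.comp e Γ) a = 0 :=
      h T (C.comp e Γ) a hT ⟨curve_deg' hT (comp_deg (curve_deg (j := 1) hT (by simpa using he))
        (curve_deg hT hΓ)), hcl⟩ ha
    rwa [C.act_comp, hae] at h1

/-- the criterion for one variety -/
theorem one_variety (hD : PoincareReducibility D) (hT : T.dim = 1) (X : 𝒱.Obj) (j : ℕ) :
    IsInjective D X j ↔ KernelIsAlg D X j ∧ KillsJacobians H X j := by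
  constructor
  · intro h
    refine ⟨fun z hz hz0 => ?_, (kills_iff' D hD X j).mp fun z hz hz0 => h z hz.homTriv hz0⟩
    rw [h z hz hz0]
    exact ⟨T, 0, 0, hT, zero_mem _, HomTriv.zero, (C.act_zero 0).symm⟩
  · rintro ⟨h1, h2⟩ z hz hz0
    exact (kills_iff' D hD X j).mpr h2 z (h1 z hz hz0) hz0

theorem final (hD : PoincareReducibility D) (hT : T.dim = 1) :
    (∀ (X : 𝒱.Obj) (j : ℕ),
      IsInjective D X j ↔ KernelIsAlg D X j ∧ KillsJacobians H X j) ∧
    [∀ (X : 𝒱.Obj) (j : ℕ), IsInjective D X j,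
      (∀ (X : 𝒱.Obj) (j : ℕ), KernelIsAlg D X j) ∧ CorrespondencesKill H,
      (∀ (X : 𝒱.Obj) (j : ℕ), KernelIsAlg D X j) ∧ ProductsVanish H,
      (∀ (X : 𝒱.Obj) (j : ℕ), KernelIsAlg D X j) ∧ SquaresVanish H,
      (∀ (X : 𝒱.Obj) (j : ℕ), KernelIsAlg D X j) ∧ DivisorsKill H,
      (∀ (i : ℕ) (X : 𝒱.Obj), X.dim = 2 * i + 1 → KernelIsAlg D X (i + 1)) ∧
        ∀ (i : ℕ) (X : 𝒱.Obj), X.dim = 2 * i + 1 → KillsJacobians H X (i + 1)].TFAE := by
  refine ⟨one_variety D hD hT, ?_⟩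
  tfae_have 1 → 2 := by
    intro h
    refine ⟨fun X j => ((one_variety D hD hT X j).mp (h X j)).1,
      fun X Y j i Γ z hΓ hcl hz => ?_⟩
    exact h Y i _ (hz.act hΓ) (aj_act_zero D hΓ hcl hz)
  tfae_have 2 → 3 := by
    rintro ⟨h1, h2⟩
    refine ⟨h1, fun X i j x y hx hy => ?_⟩
    rw [← C.act_mulCorr]
    refine h2 X X j (j + i) (C.mulCorr x) y ?_ (cl_mulCorr_zero hx.2) hy
    have h3 : C.mulCorr x ∈ C.gr (X.prod X) ((X.dim : ℤ) + i) := mulCorr_mem hx.1
    have e : (X.dim : ℤ) + (j + i : ℕ) - j = (X.dim : ℤ) + i := by push_cast; ring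
    rw [e]; exact h3
  tfae_have 3 → 4 := fun h => ⟨h.1, fun X i x hx => h.2 X i i x x hx hx⟩
  tfae_have 4 → 5 := fun h => ⟨h.1, fun X i x d hx hd => div_zero hT h.2 i X x d hx hd⟩
  tfae_have 5 → 6 := fun h => ⟨fun i X _ => h.1 X (i + 1),
    fun i X _ => kills_of_div h.2 X (i + 1)⟩
  tfae_have 6 → 1 := by
    rintro ⟨h1, h2⟩ X j
    exact (one_variety D hD hT X j).mpr ⟨kernel_all D hT h1 X j, kills_of_middle h2 X j⟩
  tfae_finish

end kernel

end Pool.Agent.Q28.SQ
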